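import Pool.Agent.H94.EP.Defs
import Pool.Agent.H94.NS.Barrier
import Pool.Agent.H16.LogBarrier

/-!
The barrier (P3): `|circ (u t₁) x| ≤ C ε √P rad x` on the slice `x 2 = a`.

Barrier on a window of length `τ₀ = 1 / P`, with `τ = t - s`, `s = t₁ - 1 / P`:
`b = ε (g(t) (8 ρ / τ)^(1/2) + (x 2 - a)²)`, `ρ = rsq x`, `g = exp (1/P ∫ q)`, in the domain
`rad x ≤ 1/2`, `|x 2 - a| ≤ 1`. It is a supersolution where `b < ε`.
-/

set_option autoImplicit false

open Set Filter Topology MeasureTheory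
open scoped ContDiff

namespace Pool.Agent.H42.EP

open Pool.Agent.H16 Pool.Agent.H87.NS Pool.Agent.H72.CC Pool.Agent.H16.TU Pool.Agent.H94.EP

/-- The algebraic inequality of the barrier. -/
lemma alg {ε A X Y κ B W v d c : ℝ} (hε : 0 < ε) (hX : 0 < X) (hY : 0 < Y) (hB : 0 ≤ B)
    (hc : 0 < c) (hc2 : c ^ 2 = 8) (hXY : c * X < Y) (hYκ : Y ^ 2 ≤ κ) (hκ : κ ≤ 1)
    (hA : ε * c / Y ≤ A) (hW : W ^ 2 ≤ B ^ 2) (hv : v ^ 2 ≤ B ^ 2) (hd : |d| ≤ 1) :
    A * (-(1 / X)) + 2 * ε ≤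
      A * (κ * B ^ 2 - 1 / (2 * Y ^ 2)) * X + A * (W * X) + 2 * ε * (v * d) := by
  have hA0 : 0 < A := lt_of_lt_of_le (by positivity) hA
  have hc2' : 2 ≤ c := by nlinarith only [hc, hc2]
  have hX2 : 8 * X ^ 2 ≤ Y ^ 2 := by
    have : (c * X) ^ 2 ≤ Y ^ 2 := pow_le_pow_left₀ (by positivity) hXY.le 2
    rw [mul_pow, hc2] at this
    exact this
  -- the drift
  have hvd : -B ≤ v * d := by
    have h1 : |v| ≤ B := abs_le_of_sq_le_sq hv hB
    have h2 : |v * d| ≤ B * 1 := by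
      rw [abs_mul]
      exact mul_le_mul h1 hd (abs_nonneg _) hB
    have := (abs_le.1 h2).1
    linarith
  -- the stretching
  have hWX : -(X ^ 2 * B ^ 2 + 1 / (4 * X ^ 2)) ≤ W := by
    have h1 : -(X ^ 2 * W ^ 2 + 1 / (4 * X ^ 2)) ≤ W := by
      have h2 : 0 ≤ (X * W + 1 / (2 * X)) ^ 2 := sq_nonneg _
      have h3 : (X * W + 1 / (2 * X)) ^ 2 = X ^ 2 * W ^ 2 + W + 1 / (4 * X ^ 2) := by
        field_simp
        ring
      linarith
    have : X ^ 2 * W ^ 2 ≤ X ^ 2 * B ^ 2 := mul_le_mul_of_nonneg_left hW (by positivity)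
    linarith only [h1, this]
  have hYinv : 1 / (2 * Y ^ 2) ≤ 1 / (16 * X ^ 2) := by
    apply one_div_le_one_div_of_le (by positivity)
    linarith
  -- collect
  have hsum : 11 / (16 * X ^ 2) + 7 / 8 * (Y ^ 2 * B ^ 2) ≤
      1 / X ^ 2 + κ * B ^ 2 - 1 / (2 * Y ^ 2) + W := by
    have e1 : X ^ 2 * B ^ 2 ≤ 1 / 8 * (κ * B ^ 2) := by
      have : X ^ 2 ≤ 1 / 8 * κ := by linarith
      nlinarith only [sq_nonneg B, hYκ, hX2]
    have e2 : 7 / 8 * (Y ^ 2 * B ^ 2) ≤ 7 / 8 * (κ * B ^ 2) := by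
      nlinarith only [sq_nonneg B, hYκ]
    have e3 : 11 / (16 * X ^ 2) = 1 / X ^ 2 - 1 / (4 * X ^ 2) - 1 / (16 * X ^ 2) := by
      field_simp
      norm_num
    rw [e3]
    linarith
  -- the two parts
  have p1 : 2 * ε ≤ A * (1 / (4 * X)) := by
    have h1 : ε * c / Y * (1 / (4 * X)) ≤ A * (1 / (4 * X)) :=
      mul_le_mul_of_nonneg_right hA (by positivity)
    have h2 : 2 * ε ≤ ε * c / Y * (1 / (4 * X)) := by
      rw [div_mul_div_comm, le_div_iff₀ (by positivity)]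
      have h3 : 8 * (X * Y) ≤ c := by
        have h4 : c * X * Y ≤ Y * Y := mul_le_mul_of_nonneg_right hXY.le hY.le
        have h5 : Y * Y ≤ 1 := by linarith only [hYκ, hκ]
        nlinarith only [hX, hY, hc, hc2, hXY, hYκ, hκ]
      nlinarith only [hε, h3]
    exact h2.trans h1
  have p2 : 2 * ε * B ≤ A * (7 / (16 * X) + 7 / 8 * (X * (Y ^ 2 * B ^ 2))) := by
    have h0 : B * Y ≤ 7 / (16 * X) + 7 / 8 * (X * (Y ^ 2 * B ^ 2)) := by
      rw [← sub_nonneg]
      have : 7 / (16 * X) + 7 / 8 * (X * (Y ^ 2 * B ^ 2)) - B * Y =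
          (7 / 16 + 7 / 8 * (X * Y * B) ^ 2 - X * Y * B) / X := by
        field_simp
      rw [this]
      apply div_nonneg _ hX.le
      linarith only [sq_nonneg (X * Y * B - 4 / 7)]
    have h1 : ε * c / Y * (B * Y) ≤ A * (7 / (16 * X) + 7 / 8 * (X * (Y ^ 2 * B ^ 2))) :=
      mul_le_mul hA h0 (by positivity) hA0.le
    have h2 : ε * c / Y * (B * Y) = ε * c * B := by
      field_simp
    rw [h2] at h1
    have h3 : 2 * ε * B ≤ ε * c * B := by
      have : ε * B * 2 ≤ ε * B * c := mul_le_mul_of_nonneg_left hc2' (by positivity)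
      linarith
    linarith only [h1, h3]
  have hfin := mul_le_mul_of_nonneg_left hsum (show 0 ≤ A * X by positivity)
  have e4 : A * X * (11 / (16 * X ^ 2) + 7 / 8 * (Y ^ 2 * B ^ 2)) =
      A * (1 / (4 * X)) + A * (7 / (16 * X) + 7 / 8 * (X * (Y ^ 2 * B ^ 2))) := by
    field_simp
    ring
  have e5 : A * X * (1 / X ^ 2 + κ * B ^ 2 - 1 / (2 * Y ^ 2) + W) =
      A * (1 / X) + (A * (κ * B ^ 2 - 1 / (2 * Y ^ 2)) * X + A * (W * X)) := by
    field_simp
    ring
  rw [e4, e5] at hfin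
  have hvd' : 2 * ε * (-B) ≤ 2 * ε * (v * d) :=
    mul_le_mul_of_nonneg_left hvd (by positivity)
  linarith only [p1, p2, hfin, hvd']


/-- The radial factor of the barrier. -/
noncomputable def am (ε δ κ : ℝ) (q : ℝ → ℝ) (t : ℝ) : ℝ :=
  ε * √8 * Real.exp (κ * ∫ s in (0:ℝ)..t, q s) / √(t + δ)

lemma am_deriv {ε δ κ : ℝ} {q : ℝ → ℝ} (hq : Continuous q) {t : ℝ} (ht : 0 < t + δ) :
    HasDerivAt (am ε δ κ q) (am ε δ κ q t * (κ * q t - 1 / (2 * (t + δ)))) t := by
  have h1 : HasDerivAt (fun t => ∫ s in (0:ℝ)..t, q s) (q t) t :=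
    (hq.integral_hasStrictDerivAt 0 t).hasDerivAt
  have h2 := ((h1.const_mul κ).exp).const_mul (ε * √8)
  have h3 : HasDerivAt (fun t : ℝ => √(t + δ)) (1 / (2 * √(t + δ))) t := by
    have := ((hasDerivAt_id t).add_const δ).sqrt ht.ne'
    simpa using this
  have hs : √(t + δ) ≠ 0 := (Real.sqrt_pos.2 ht).ne'
  have h4 := h2.div h3 hs
  have hsq : √(t + δ) ^ 2 = t + δ := Real.sq_sqrt ht.le
  refine h4.congr_deriv ?_
  unfold am
  have e1 : (2 * (t + δ)) = 2 * √(t + δ) ^ 2 := by rw [hsq]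
  rw [e1]
  field_simp

lemma am_pos {ε δ κ : ℝ} {q : ℝ → ℝ} (hε : 0 < ε) {t : ℝ} (ht : 0 < t + δ) :
    0 < am ε δ κ q t := by
  unfold am
  have := Real.sqrt_pos.2 ht
  positivity

lemma am_ge {ε δ κ : ℝ} {q : ℝ → ℝ} (hε : 0 < ε) (hκ : 0 ≤ κ) (hq0 : ∀ t, 0 ≤ q t) {t : ℝ}
    (ht0 : 0 ≤ t) (ht : 0 < t + δ) : ε * √8 / √(t + δ) ≤ am ε δ κ q t := by
  unfold am
  have h1 : 0 ≤ ∫ s in (0:ℝ)..t, q s := intervalIntegral.integral_nonneg ht0 fun s _ => hq0 s
  have h2 : 1 ≤ Real.exp (κ * ∫ s in (0:ℝ)..t, q s) := Real.one_le_exp (mul_nonneg hκ h1)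
  have h3 := Real.sqrt_pos.2 ht
  apply div_le_div_of_nonneg_right _ h3.le
  have : 0 ≤ ε * √8 := by positivity
  nlinarith

/-- The comparison on the window `[0, T']`. -/
theorem bar0 {T : ℝ} {u : ℝ → E3 → E3} {p : ℝ → E3 → ℝ} (h : IsAxisymNS T u p) {T' : ℝ}
    (hT0 : 0 ≤ T') (hT' : T' < T) {ε δ z : ℝ} (hε : 0 < ε) (hδ : 0 < δ) (hκ : T' + δ ≤ 1)
    {q : ℝ → ℝ} (hqc : Continuous q) (hq0 : ∀ t, 0 ≤ q t)
    (hΓ : ∀ t ∈ Icc 0 T', ∀ x, rad x ≤ 1 / 2 → |circ (u t) x| ≤ ε)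
    (hq : ∀ t ∈ Icc 0 T', ∀ x, rsq x ≤ 1 / 4 → |x 2 - z| ≤ 1 →
      sW (u t) x ^ 2 ≤ q t ∧ u t x 2 ^ 2 ≤ q t)
    (hinit : ∀ x, rad x ≤ 1 / 2 → |circ (u 0) x| ≤ ε * √8 * √(rsq x) / √δ) :
    ∀ x, rad x ≤ 1 / 2 → x 2 = z → |circ (u T') x| ≤ am ε δ (T' + δ) q T' * √(rsq x) := by
  set κ : ℝ := T' + δ with hκdef
  have hκ0 : 0 < κ := by positivity
  obtain ⟨K, hK⟩ := h.bounded T' hT'
  set G : Set E3 := {x : E3 | rad x ≤ 1 / 2 ∧ |x 2 - z| ≤ 1} with hGdef
  set U : Set E3 := {x : E3 | rad x < 1 / 2 ∧ |x 2 - z| < 1} with hUdef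
  have hG : IsClosed G := (isClosed_le continuous_rad continuous_const).inter
    (isClosed_le ((continuous_coord 2).sub continuous_const).abs continuous_const)
  have hU : IsOpen U := (isOpen_lt continuous_rad continuous_const).inter
    (isOpen_lt ((continuous_coord 2).sub continuous_const).abs continuous_const)
  have hUG : U ⊆ G := fun x hx => ⟨hx.1.le, hx.2.le⟩
  have hτ : ∀ t ∈ Icc 0 T', 0 < t + δ := fun t ht => by linarith [ht.1]
  have hrsq : Continuous rsq := by unfold rsq; fun_prop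
  have key : ∀ σ : ℝ, |σ| = 1 → ∀ t ∈ Icc 0 T', ∀ x ∈ G, 0 < rad x →
      σ * circ (u t) x ≤ am ε δ κ q t * √(rsq x) + (ε * (x 2 - z) ^ 2 + 0 * (0 - t)) := by
    intro σ hσ
    have hle : ∀ t x, σ * circ (u t) x ≤ |circ (u t) x| := by
      intro t x
      calc σ * circ (u t) x ≤ |σ * circ (u t) x| := le_abs_self _
        _ = |circ (u t) x| := by rw [abs_mul, hσ, one_mul]
    have hcirc := h.continuousOn_circ hT'
    refine comparison h hT' (f := fun t x => σ * circ (u t) x)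
      (Φ := fun t x => am ε δ κ q t * √(rsq x) + (ε * (x 2 - z) ^ 2 + 0 * (0 - t)))
      (G := G) (U := U) (K := K) ?_ ?_ hG hU hUG ?_ ?_ ?_ ?_ ?_
    · exact continuousOn_const.mul hcirc
    · intro t ht x
      calc σ * circ (u t) x ≤ |circ (u t) x| := hle _ x
        _ ≤ rad x * ‖u t x‖ := circ_le _ _
        _ ≤ K * rad x := by
          rw [mul_comm]
          exact mul_le_mul_of_nonneg_right (hK t ht x) (rad_nonneg x)
    · have ha : ContinuousOn (am ε δ κ q) (Icc 0 T') := fun t ht =>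
        (am_deriv hqc (hτ t ht)).continuousAt.continuousWithinAt
      have ha' : ContinuousOn (fun w : ℝ × E3 => am ε δ κ q w.1)
          (Icc 0 T' ×ˢ {x | x ∈ G ∧ 0 < rad x}) :=
        ha.comp continuousOn_fst fun w hw => hw.1
      have hr : Continuous fun w : ℝ × E3 => √(rsq w.2) :=
        Real.continuous_sqrt.comp (hrsq.comp continuous_snd)
      have hz : Continuous fun w : ℝ × E3 => ε * (w.2 2 - z) ^ 2 + 0 * (0 - w.1) := by
        have := (continuous_coord 2).comp (continuous_snd (X := ℝ) (Y := E3))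
        have h2 : Continuous fun w : ℝ × E3 => w.2 2 := this
        fun_prop
      exact (ha'.mul hr.continuousOn).add hz.continuousOn
    · intro t ht x _ _
      have := (am_pos (κ := κ) (q := q) hε (hτ t ht)).le
      have h2 : 0 ≤ √(rsq x) := Real.sqrt_nonneg _
      have h3 := mul_nonneg this h2
      have h4 : 0 ≤ ε * (x 2 - z) ^ 2 := by positivity
      simp only [zero_mul, add_zero]
      linarith
    · intro x hx _
      have h1 := (hle 0 x).trans (hinit x hx.1)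
      have h2 : am ε δ κ q 0 = ε * √8 / √δ := by
        unfold am
        simp
      simp only [zero_mul, add_zero]
      rw [h2]
      have h4 : 0 ≤ ε * (x 2 - z) ^ 2 := by positivity
      have h5 : ε * √8 * √(rsq x) / √δ = ε * √8 / √δ * √(rsq x) := by ring
      linarith
    · intro t ht x hx hxU hr
      have h1 := (hle t x).trans (hΓ t ht x hx.1)
      have ha := am_ge (κ := κ) hε hκ0.le hq0 ht.1 (hτ t ht)
      have hs : 0 < √(t + δ) := Real.sqrt_pos.2 (hτ t ht)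
      have h4 : 0 ≤ ε * (x 2 - z) ^ 2 := by positivity
      have h5 : 0 ≤ am ε δ κ q t * √(rsq x) :=
        mul_nonneg (am_pos hε (hτ t ht)).le (Real.sqrt_nonneg _)
      simp only [zero_mul, add_zero]
      by_cases hz : |x 2 - z| < 1
      · have hrad : rad x = 1 / 2 := by
          by_contra hne
          exact hxU ⟨lt_of_le_of_ne hx.1 hne, hz⟩
        have hρ : √(rsq x) = 1 / 2 := by
          rw [← rad_sq', Real.sqrt_sq (rad_nonneg x), hrad]
        have h8 : 2 ≤ √8 := by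
          rw [show (2:ℝ) = √4 by rw [show (4:ℝ) = 2 ^ 2 by norm_num]; exact (Real.sqrt_sq (by norm_num)).symm]
          exact Real.sqrt_le_sqrt (by norm_num)
        have hs1 : √(t + δ) ≤ 1 := by
          have h1 : √(t + δ) ≤ √1 := Real.sqrt_le_sqrt (by have := ht.2; linarith)
          rwa [Real.sqrt_one] at h1
        have h6 : ε ≤ ε * √8 / √(t + δ) * (1 / 2) := by
          rw [div_mul_eq_mul_div, le_div_iff₀ hs]
          nlinarith only [hε, h8, hs1]
        have h7 : ε * √8 / √(t + δ) * (1 / 2) ≤ am ε δ κ q t * (1 / 2) :=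
          mul_le_mul_of_nonneg_right ha (by norm_num)
        rw [hρ]
        linarith
      · have hz1 : 1 ≤ (x 2 - z) ^ 2 := by
          rw [← sq_abs]
          nlinarith only [not_lt.1 hz, hz]
        nlinarith only [hε, h1, h5, hz1]
    · intro t ht x hx hr hlt
      have ht' : t ∈ Ioo 0 T := ⟨ht.1, ht.2.trans_lt hT'⟩
      have htI : t ∈ Icc 0 T' := ⟨ht.1.le, ht.2⟩
      obtain ⟨b, D, H, hj, hin⟩ := h.signed_circ ht' x hr σ
      have hρ : 0 < rsq x := rsq_pos hr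
      have hX : 0 < √(rsq x) := Real.sqrt_pos.2 hρ
      have hXsq : √(rsq x) ^ 2 = rsq x := Real.sq_sqrt hρ.le
      have hY : 0 < √(t + δ) := Real.sqrt_pos.2 (hτ t htI)
      have hYsq : √(t + δ) ^ 2 = t + δ := Real.sq_sqrt (hτ t htI).le
      have hψ : ∀ᶠ ρ in 𝓝 (rsq x), HasDerivAt (fun ρ : ℝ => √ρ) ((fun ρ : ℝ => 1 / (2 * √ρ)) ρ) ρ := by
        filter_upwards [Ioi_mem_nhds hρ] with ρ hρ'
        exact Real.hasDerivAt_sqrt (ne_of_gt hρ')
      have hψ' : HasDerivAt (fun ρ : ℝ => 1 / (2 * √ρ)) (-(1 / (4 * rsq x * √(rsq x)))) (rsq x) := by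
        have h1 := ((Real.hasDerivAt_sqrt hρ.ne').const_mul 2).inv (by positivity)
        have h2 : (fun ρ : ℝ => 1 / (2 * √ρ)) = (fun y => 2 * √y)⁻¹ := by
          ext y; simp
        rw [h2]
        refine h1.congr_deriv ?_
        have e1 : 4 * rsq x * √(rsq x) = 4 * √(rsq x) ^ 2 * √(rsq x) := by rw [hXsq]
        rw [e1]
        field_simp
        norm_num
      have hjr := radial_jet (a := am ε δ κ q) (x := x) (am_deriv hqc (hτ t htI)) hψ hψ'
      have hjz := zt_jet' ε 0 0 z t x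
      have hjt := hjr.add hjz
      refine ⟨b, D, H, _, _, _, 0, hj, hjt, hin, ?_⟩
      -- the inequality
      have hΓx := hΓ t htI x hx.1.le
      have hlt' : am ε δ κ q t * √(rsq x) + (ε * (x 2 - z) ^ 2 + 0 * (0 - t)) < ε :=
        hlt.trans_le ((hle t x).trans hΓx)
      have hρ4 : rsq x ≤ 1 / 4 := by
        rw [← rad_sq']
        have h1 : rad x < 1 / 2 := hx.1
        nlinarith only [rad_nonneg x, hr, h1]
      obtain ⟨hW, hv⟩ := hq t htI x hρ4 hx.2.le
      have hA := am_ge (κ := κ) hε hκ0.le hq0 htI.1 (hτ t htI)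
      have hXY : √8 * √(rsq x) < √(t + δ) := by
        have h1 : ε * √8 / √(t + δ) * √(rsq x) ≤ am ε δ κ q t * √(rsq x) :=
          mul_le_mul_of_nonneg_right hA hX.le
        have h2 : ε * √8 / √(t + δ) * √(rsq x) < ε := by
          have : 0 ≤ ε * (x 2 - z) ^ 2 := by positivity
          linarith
        rw [div_mul_eq_mul_div, div_lt_iff₀ hY] at h2
        have h3 : ε * (√8 * √(rsq x)) < ε * √(t + δ) := by linarith
        exact lt_of_mul_lt_mul_left h3 hε.le
      have hB : √(q t) ^ 2 = q t := Real.sq_sqrt (hq0 t)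
      have hmain := alg (ε := ε) (A := am ε δ κ q t) (X := √(rsq x)) (Y := √(t + δ)) (κ := κ)
        (B := √(q t)) (W := sW (u t) x) (v := u t x 2) (d := x 2 - z) (c := √8) hε hX hY
        (Real.sqrt_nonneg _) (by positivity) (Real.sq_sqrt (by norm_num)) hXY
        (by rw [hYsq]; have := ht.2; linarith) hκ hA (by rw [hB]; exact hW) (by rw [hB]; exact hv)
        hx.2.le
      rw [hB, hYsq] at hmain
      have hflux : radFlux (u t) x = rsq x * sW (u t) x := flux_eq (axF_of h ⟨ht'.1.le, ht'.2⟩) x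
      have hsec := radial_second (am ε δ κ q t) (fun ρ : ℝ => 1 / (2 * √ρ))
        (-(1 / (4 * rsq x * √(rsq x)))) x hρ
      have hfir := radial_first (am ε δ κ q t) (fun ρ : ℝ => 1 / (2 * √ρ)) x (u t x)
      have hfl : x 0 * u t x 0 + x 1 * u t x 1 = rsq x * sW (u t) x := hflux
      rw [hfl] at hfir
      simp only [Fin.sum_univ_three] at hsec hfir ⊢
      simp only [e_apply, zero_smul, add_zero, Fin.isValue, if_true, Fin.reduceEq, if_false,
        mul_zero, mul_one] at hsec hfir ⊢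
      have e1 : am ε δ κ q t * (4 * rsq x * -(1 / (4 * rsq x * √(rsq x)))) =
          am ε δ κ q t * (-(1 / √(rsq x))) := by
        field_simp
      have e2 : am ε δ κ q t * (2 * (rsq x * sW (u t) x) * (1 / (2 * √(rsq x)))) =
          am ε δ κ q t * (sW (u t) x * √(rsq x)) := by
        have : rsq x = √(rsq x) * √(rsq x) := by rw [← _root_.sq, hXsq]
        rw [show am ε δ κ q t * (2 * (rsq x * sW (u t) x) * (1 / (2 * √(rsq x)))) =
          am ε δ κ q t * sW (u t) x * (rsq x / √(rsq x)) by field_simp]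
        rw [Real.div_sqrt]
        ring
      rw [e1] at hsec
      rw [e2] at hfir
      rw [show ∀ a b c d : ℝ, a + b + (c + ε * 2) - d = (a + b + c - d) + 2 * ε from
        fun a b c d => by ring, hsec]
      rw [show ∀ a b v c : ℝ, a + b + v * (c + ε * (2 * (x 2 - z))) =
        (a + b + v * c) + 2 * ε * (v * (x 2 - z)) from fun a b v c => by ring, hfir]
      linarith only [hmain, hmain]
  intro x hx hxz
  by_cases hr : 0 < rad x
  · have hxG : x ∈ G := ⟨hx, by rw [hxz]; simp⟩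
    have h1 := key 1 (by simp) T' ⟨hT0, le_rfl⟩ x hxG hr
    have h2 := key (-1) (by simp) T' ⟨hT0, le_rfl⟩ x hxG hr
    rw [hxz] at h1 h2
    simp only [sub_self, zero_mul, add_zero] at h1 h2
    rw [abs_le]
    constructor <;> linarith only [h2, h1]
  · have hr0 : rad x = 0 := le_antisymm (not_lt.1 hr) (rad_nonneg x)
    have h1 := circ_le (u T') x
    rw [hr0, zero_mul] at h1
    have h2 : 0 ≤ am ε δ κ q T' * √(rsq x) :=
      mul_nonneg (am_pos hε (hτ T' ⟨hT0, le_rfl⟩)).le (Real.sqrt_nonneg _)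
    linarith

/-- P3: the barrier. -/
theorem barrier : ∃ C : ℝ, 1 ≤ C ∧ ∀ (T : ℝ) (u : ℝ → E3 → E3) (p : ℝ → E3 → ℝ), IsHInfAxisymNS T u p →
    ∀ ε > 0, ∀ t₀ t₁ : ℝ, 0 ≤ t₀ → t₀ ≤ t₁ → t₁ < T →
    (∀ t ∈ Icc t₀ t₁, ∀ x, rad x < 1 → |circ (u t) x| ≤ ε) →
    ∀ P : ℝ, 1 ≤ P → (∀ x, rad x < 1 → |sV (u t₀) x| ≤ ε * P) →
    ∀ (a : ℝ) (q : ℝ → ℝ), ContinuousOn q (Icc t₀ t₁) → (∀ t, 0 ≤ q t) →
    (∀ t ∈ Icc t₀ t₁, ∀ x, rsq x ≤ 1 / 4 → |x 2 - a| ≤ 1 → sW (u t) x ^ 2 ≤ q t ∧ u t x 2 ^ 2 ≤ q t) →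
    (∀ s t : ℝ, t₀ ≤ s → s ≤ t → t ≤ t₁ → t ≤ s + 1 → ∫ r in s..t, q r ≤ P) →
    ∀ x, rad x < 1 → x 2 = a → |circ (u t₁) x| ≤ C * ε * √P * rad x := by
  refine ⟨√8 * Real.exp 1 + 2, ?_, ?_⟩
  · have : 0 ≤ √8 * Real.exp 1 := by positivity
    linarith
  intro T u p hinf ε hε t₀ t₁ h0 h01 h1T hΓ P hP hdat a q hqc hq0 hq hqP x hx hxa
  have h := hinf.ns
  have hrho : √(rsq x) = rad x := by rw [← rad_sq', Real.sqrt_sq (rad_nonneg x)]
  have hsP : 1 ≤ √P := by
    have := Real.sqrt_le_sqrt hP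
    rwa [Real.sqrt_one] at this
  -- the outer part
  by_cases hx2 : 1 / 2 < rad x
  · have h1 := hΓ t₁ ⟨h01, le_rfl⟩ x hx
    have h2 : ε ≤ 2 * ε * √P * rad x := by
      have h3 : 1 * (1 / 2) ≤ √P * rad x := mul_le_mul hsP hx2.le (by norm_num) (by positivity)
      have h4 : 2 * ε * (1 * (1 / 2)) ≤ 2 * ε * (√P * rad x) :=
        mul_le_mul_of_nonneg_left h3 (by positivity)
      linarith
    have h5 : 0 ≤ √8 * Real.exp 1 * ε * √P * rad x := by
      have := rad_nonneg x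
      positivity
    linarith only [h1, h2, h5]
  have hx2' : rad x ≤ 1 / 2 := not_lt.1 hx2
  have hP0 : 0 < P := by linarith
  have hPinv : 1 / P ≤ 1 := by
    rw [div_le_one hP0]
    exact hP
  have hPinv0 : 0 < 1 / P := by positivity
  -- the extended majorant
  set Q : ℝ → ℝ := Set.IccExtend h01 (fun t : Icc t₀ t₁ => q t) with hQdef
  have hQc : Continuous Q := (continuousOn_iff_continuous_domRestrict.1 hqc).Icc_extend'
  have hQ0 : ∀ t, 0 ≤ Q t := fun t => hq0 _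
  have hQ : ∀ t ∈ Icc t₀ t₁, Q t = q t := fun t ht => Set.IccExtend_of_mem h01 _ ht
  obtain ⟨K, hK⟩ := h.bounded t₁ h1T
  -- the general step
  have step : ∀ τ δ : ℝ, t₀ ≤ τ → τ ≤ t₁ → 0 < δ → t₁ - τ + δ = 1 / P →
      (∀ x, rad x ≤ 1 / 2 → |circ (u τ) x| ≤ ε * √8 * √(rsq x) / √δ) →
      |circ (u t₁) x| ≤ (√8 * Real.exp 1 + 2) * ε * √P * rad x := by
    intro τ δ hτ0 hτ1 hδ hsum hin
    have hs := Pool.Agent.H94.NS.shift h (show 0 ≤ τ by linarith)
    have hmem : ∀ t ∈ Icc 0 (t₁ - τ), t + τ ∈ Icc t₀ t₁ := fun t ht =>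
      ⟨by linarith [ht.1], by linarith [ht.2]⟩
    have hb := bar0 hs (T' := t₁ - τ) (ε := ε) (δ := δ) (z := a) (q := fun t => Q (t + τ))
      (by linarith) (by linarith) hε hδ (by rw [hsum]; exact hPinv)
      (hQc.comp (by fun_prop)) (fun t => hQ0 _)
      (fun t ht x hx => hΓ _ (hmem t ht) x (by linarith))
      (fun t ht x hx hz => by
        have := hq _ (hmem t ht) x hx hz
        change sW (u (t + τ)) x ^ 2 ≤ Q (t + τ) ∧ u (t + τ) x 2 ^ 2 ≤ Q (t + τ)
        rw [hQ _ (hmem t ht)]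
        exact this)
      (fun x hx => by
        rw [zero_add]
        exact hin x hx) x hx2' hxa
    change |circ (u (t₁ - τ + τ)) x| ≤ _ at hb
    rw [sub_add_cancel] at hb
    refine hb.trans ?_
    have hint : ∫ s in (0:ℝ)..(t₁ - τ), Q (s + τ) = ∫ s in τ..t₁, q s := by
      rw [intervalIntegral.integral_comp_add_right (fun s => Q s) τ, zero_add, sub_add_cancel]
      apply intervalIntegral.integral_congr
      intro s hs
      rw [uIcc_of_le hτ1] at hs
      exact hQ s ⟨by linarith [hs.1], hs.2⟩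
    have hint2 : ∫ s in τ..t₁, q s ≤ P := hqP τ t₁ hτ0 hτ1 le_rfl (by linarith)
    unfold am
    rw [hint, hsum, hrho]
    have e1 : √(1 / P) = 1 / √P := by rw [one_div, Real.sqrt_inv, one_div]
    rw [e1]
    have h2 : Real.exp (1 / P * ∫ s in τ..t₁, q s) ≤ Real.exp 1 := by
      apply Real.exp_le_exp.2
      rw [one_div, inv_mul_le_iff₀ hP0, mul_one]
      exact hint2
    have hsP0 : 0 < √P := by linarith
    have e2 : ε * √8 * Real.exp (1 / P * ∫ s in τ..t₁, q s) / (1 / √P) * rad x =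
        (ε * √8 * √P * rad x) * Real.exp (1 / P * ∫ s in τ..t₁, q s) := by
      field_simp
    rw [e2]
    have h3 : 0 ≤ ε * √8 * √P * rad x := by
      have := rad_nonneg x
      positivity
    have h4 := mul_le_mul_of_nonneg_left h2 h3
    have h5 : 0 ≤ 2 * ε * √P * rad x := by
      have := rad_nonneg x
      positivity
    have e3 : (√8 * Real.exp 1 + 2) * ε * √P * rad x =
      ε * √8 * √P * rad x * Real.exp 1 + 2 * ε * √P * rad x := by ring
    rw [e3]
    linarith only [h4, h5]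
  by_cases hcase : t₁ - 1 / P < t₀
  · -- the window reaches the initial time
    refine step t₀ (t₀ - t₁ + 1 / P) le_rfl h01 (by linarith) (by ring) ?_
    intro y hy
    have hδ0 : 0 < t₀ - t₁ + 1 / P := by linarith
    have hδ1 : t₀ - t₁ + 1 / P ≤ 1 / P := by linarith
    have hs1 : √(t₀ - t₁ + 1 / P) ≤ 1 / √P := by
      have h1 := Real.sqrt_le_sqrt hδ1
      have h2 : √(1 / P) = 1 / √P := by rw [one_div, Real.sqrt_inv, one_div]
      rwa [h2] at h1
    have hs0 : 0 < √(t₀ - t₁ + 1 / P) := Real.sqrt_pos.2 hδ0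
    have hrho' : √(rsq y) = rad y := by rw [← rad_sq', Real.sqrt_sq (rad_nonneg y)]
    have h8 : 1 ≤ √8 := by
      have := Real.sqrt_le_sqrt (show (1:ℝ) ≤ 8 by norm_num)
      rwa [Real.sqrt_one] at this
    have hr := rad_nonneg y
    have hsP0 : 0 < √P := by linarith
    have hPsq : √P ^ 2 = P := Real.sq_sqrt hP0.le
    have hcirc : |circ (u t₀) y| ≤ ε * (√P * rad y) := by
      have h1 := hΓ t₀ ⟨le_rfl, h01⟩ y (by linarith)
      have h2 : |circ (u t₀) y| ≤ ε * (√P * rad y) ^ 2 := by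
        rw [circ_eq (axF_of h ⟨h0, h01.trans_lt h1T⟩), abs_mul, ← rad_sq',
          abs_of_nonneg (by positivity : 0 ≤ rad y ^ 2)]
        have hV := hdat y (by linarith)
        have h3 : rad y ^ 2 * |sV (u t₀) y| ≤ rad y ^ 2 * (ε * P) :=
          mul_le_mul_of_nonneg_left hV (by positivity)
        have h4 : ε * (√P * rad y) ^ 2 = rad y ^ 2 * (ε * P) := by
          rw [mul_pow, hPsq]
          ring
        rw [h4]
        exact h3
      by_cases hc : 1 ≤ √P * rad y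
      · nlinarith only [hε, h1, hc]
      · have h5 : (√P * rad y) ^ 2 ≤ √P * rad y := by
          have h6 : 0 ≤ √P * rad y := by positivity
          nlinarith only [not_le.1 hc, hc, h6]
        nlinarith only [hε, h2, h5]
    rw [hrho', le_div_iff₀ hs0]
    calc |circ (u t₀) y| * √(t₀ - t₁ + 1 / P) ≤ ε * (√P * rad y) * (1 / √P) :=
          mul_le_mul hcirc hs1 hs0.le (by positivity)
      _ = ε * 1 * rad y := by field_simp
      _ ≤ ε * √8 * rad y := by
          apply mul_le_mul_of_nonneg_right _ hr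
          exact mul_le_mul_of_nonneg_left h8 hε.le
  · -- interior window
    have hcase' : t₀ ≤ t₁ - 1 / P := not_lt.1 hcase
    set B : ℝ := |K| + 1 with hB
    have hB0 : 0 < B := by positivity
    set η : ℝ := min (1 / P) ((ε / B) ^ 2) with hη
    have hη0 : 0 < η := lt_min hPinv0 (by positivity)
    have hη1 : η ≤ 1 / P := min_le_left _ _
    have hη2 : η ≤ (ε / B) ^ 2 := min_le_right _ _
    refine step (t₁ - 1 / P + η) η (by linarith) (by linarith) hη0 (by ring) ?_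
    intro y hy
    have ht : t₁ - 1 / P + η ∈ Icc 0 t₁ := ⟨by linarith, by linarith⟩
    have h1 := circ_le (u (t₁ - 1 / P + η)) y
    have h2 := hK _ ht y
    have h3 : ‖u (t₁ - 1 / P + η) y‖ ≤ B := by
      have := le_abs_self K
      linarith
    have hs0 : 0 < √η := Real.sqrt_pos.2 hη0
    have hs1 : √η ≤ ε / B := by
      have := Real.sqrt_le_sqrt hη2
      rwa [Real.sqrt_sq (by positivity)] at this
    have hrho' : √(rsq y) = rad y := by rw [← rad_sq', Real.sqrt_sq (rad_nonneg y)]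
    have h8 : 1 ≤ √8 := by
      have := Real.sqrt_le_sqrt (show (1:ℝ) ≤ 8 by norm_num)
      rwa [Real.sqrt_one] at this
    rw [hrho', le_div_iff₀ hs0]
    have hr := rad_nonneg y
    calc |circ (u (t₁ - 1 / P + η)) y| * √η ≤ (rad y * B) * (ε / B) := by
          apply mul_le_mul _ hs1 hs0.le (by positivity)
          exact h1.trans (mul_le_mul_of_nonneg_left h3 hr)
      _ = ε * 1 * rad y := by field_simp
      _ ≤ ε * √8 * rad y := by
          apply mul_le_mul_of_nonneg_right _ hr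
          exact mul_le_mul_of_nonneg_left h8 hε.le

end Pool.Agent.H42.EP
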